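import Pool.Agent.H95.ESP.Stmts

/-! Board esp (helper95, MP_3ddf05_nt), row FIX. -/

set_option autoImplicit false

namespace ESP
open Finset

theorem fix_thm (hO : S_OMG) (hV : S_SVE) : S_FIX := by
  classical
  obtain ⟨C, hC, hV⟩ := hV
  refine ⟨C, hC, ?_⟩
  intro a b a' B Q k z hQ hz P hP S hS
  have hinj : Set.InjOn (fun b' : ℤ => (b' + B + 1).toNat) (S : Set ℤ) := by
    intro x hx y hy hxy
    have h1 := (hS x hx).1
    have h2 := (hS y hy).1
    rw [abs_le] at h1 h2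
    simp only at hxy
    omega
  have hcard : (S.image (fun b' : ℤ => (b' + B + 1).toNat)).card = S.card :=
    Finset.card_image_of_injOn hinj
  have hsub : S.image (fun b' : ℤ => (b' + B + 1).toNat) ⊆ Icc 1 (2 * B + 1) := by
    intro m hm
    obtain ⟨b', hb', rfl⟩ := Finset.mem_image.1 hm
    have h1 := (hS b' hb').1
    rw [abs_le] at h1
    rw [Finset.mem_Icc]
    constructor <;> omega
  have hmain := hV (2 * B + 1) Q k z (by omega) hQ hz P (fun p hp => ⟨(hP p hp).1, (hP p hp).2.2.1⟩)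
    (S.image (fun b' : ℤ => (b' + B + 1).toNat)) hsub (by
    intro p hp
    obtain ⟨hpp, hp13, hpz, hpD, hpa⟩ := hP p hp
    obtain ⟨Ω, hΩ1, hΩ2, hΩ3⟩ := hO p hpp hp13 a b a' hpD hpa
    have hp0 : 0 < p := hpp.pos
    have hinj2 : Set.InjOn (fun n : ℕ => (n + (B + 1)) % p) (Ω : Set ℕ) := by
      intro x hx y hy hxy
      have hx1 : x < p := Finset.mem_range.1 (hΩ1 hx)
      have hy1 : y < p := Finset.mem_range.1 (hΩ1 hy)
      have h3 : x + (B + 1) ≡ y + (B + 1) [MOD p] := hxy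
      have h4 : x ≡ y [MOD p] := Nat.ModEq.add_right_cancel' (B + 1) h3
      unfold Nat.ModEq at h4
      rw [Nat.mod_eq_of_lt hx1, Nat.mod_eq_of_lt hy1] at h4
      exact h4
    refine ⟨Ω.image (fun n : ℕ => (n + (B + 1)) % p), ?_, ?_, ?_⟩
    · intro m hm
      obtain ⟨n, _, rfl⟩ := Finset.mem_image.1 hm
      exact Finset.mem_range.2 (Nat.mod_lt _ hp0)
    · rw [Finset.card_image_of_injOn hinj2]; exact hΩ2
    · intro m hm hmem
      obtain ⟨b', hb', rfl⟩ := Finset.mem_image.1 hm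
      obtain ⟨n, hn, hne⟩ := Finset.mem_image.1 hmem
      have h1 := (hS b' hb').1
      rw [abs_le] at h1
      have h5 : ((n + (B + 1) : ℕ) : ℤ) ≡ (((b' + B + 1).toNat : ℕ) : ℤ) [ZMOD p] := by
        rw [Int.natCast_modEq_iff]
        exact hne
      have h6 : (((b' + B + 1).toNat : ℕ) : ℤ) = b' + B + 1 := Int.toNat_of_nonneg (by omega)
      rw [h6] at h5
      have h7 : (n : ℤ) ≡ b' [ZMOD p] := by
        have h8 : ((n + (B + 1) : ℕ) : ℤ) = (n : ℤ) + ((B : ℤ) + 1) := by push_cast; ring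
        have h9 : b' + (B : ℤ) + 1 = b' + ((B : ℤ) + 1) := by ring
        rw [h8, h9] at h5
        exact Int.ModEq.add_right_cancel' _ h5
      obtain ⟨h10, h11⟩ := hΩ3 n hn b' h7.symm
      exact h11 ((hS b' hb').2 p hp h10))
  rw [hcard] at hmain
  have hcast : ((2 * B + 1 : ℕ) : ℝ) = 2 * (B : ℝ) + 1 := by push_cast; ring
  rw [hcast] at hmain
  exact hmain

end ESP
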